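import Pool.Agent.H488Z.KS.Main

set_option autoImplicit false

namespace Pool.Agent.Results.MP_632c34_an.ANotBorel

open Pool.Agent.H488Z.KS
open scoped Manifold ContDiff

/-- On the smooth two-dimensional torus, for every smoothness class `r`, topological conjugacy is
not Borel on any class of `C^r` diffeomorphisms that contains all diffeomorphisms without periodic
points. The Kupka-Smale diffeomorphisms form such a class, both of their defining conditions being
conditions on periodic orbits. -/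
theorem result : ∃ (M : Type) (_ : TopologicalSpace M) (_ : ChartedSpace (ℝ × ℝ) M),
    IsManifold 𝓘(ℝ, ℝ × ℝ) ∞ M ∧ Nonempty (M ≃ₜ AddCircle (1 : ℝ) × AddCircle (1 : ℝ)) ∧
    ∀ (r : ℕ∞) (𝒦 : Set (Diffeomorph 𝓘(ℝ, ℝ × ℝ) 𝓘(ℝ, ℝ × ℝ) M M r)),
      (∀ f : Diffeomorph 𝓘(ℝ, ℝ × ℝ) 𝓘(ℝ, ℝ × ℝ) M M r, Function.periodicPts f = ∅ → f ∈ 𝒦) →
      ¬ ConjBorelOn (ℝ × ℝ) M r 𝒦 :=
  ⟨T1 × T1, inferInstance, inferInstance, inferInstance, ⟨Homeomorph.refl _⟩, main⟩

end Pool.Agent.Results.MP_632c34_an.ANotBorel
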